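import Pool.Agent.X305.Fj.Main

/-!
# Varieties whose cohomology is generated by divisors
-/

set_option autoImplicit false

open CategoryTheory AlgebraicGeometry Submodule

universe u v

namespace Pool.Agent.X305.Fj

open Pool.Agent.H914 Pool.Agent.H914.VarClass Pool.Agent.H914.VarClass.Obj
  Pool.Agent.H914.WeilCohomology Pool.Agent.W552 Pool.Agent.Y103

variable {k : Type u} [Field k] {𝒱 : VarClass k} {ops : CycleOps 𝒱}

/-- Every class of degree `2 j`, for `2 j ≤ dim X`, is a linear combination (with coefficients in the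
coefficient field) of products of `j` divisor classes. -/
def GeneratedByDivisors (W : WeilCohomology.{u, v} ops) (X : 𝒱.Obj) : Prop :=
  ∀ j, 2 * j ≤ X.dim → ∀ x ∈ W.gr X (2 * j), DivisorRing W X j x

variable {W : WeilCohomology.{u, v} ops} {X : 𝒱.Obj} {D : X.Cycles}

/-- **Hodge type and `D` for liftable varieties whose cohomology is generated by divisors.** -/
theorem generated (hX : 2 ≤ X.dim) (hD : X.IsCyc 1 D)
    (hdeg : 0 < X.V.degCycle (divPow ops D X.dim X.V.fundCycle)) (hHL : HardLefschetz W X D)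
    (hI : HodgeIndex W X D) (hG : GeneratedByDivisors W X) {ι : W.K ≃+* ℂ} {c : W.H X → W.H X}
    (hc : HodgeRiemann W X D ι c) (hc2 : ∀ a ∈ W.gr X 2, c a ∈ W.gr X 2) :
    HodgeType W X D ∧ ∀ j, 2 * j ≤ X.dim → ∀ z, X.IsCyc j z →
      (∀ w, X.IsCyc (X.dim - j) w → X.V.degCycle (ops.mul z w) = 0) → W.cl X z = 0 := by
  have hgr : ∀ {j : ℕ} {x : W.H X}, x ∈ genRing W.K (algClasses W X) 1 j → x ∈ W.gr X (2 * j) :=
    fun hx => genRing_gr (fun i => Set.Subset.rfl) hx
  have hS : StdFor W X D (InRing W.K (algClasses W X) 1 (X.dim / 2)) := by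
    refine hodge_generated hD hc le_rfl (fun i => Set.Subset.rfl) ⟨D, hD, rfl⟩ ?_ ?_
      (hodgeTypeFor_one hX hD hdeg hI)
    · intro i h1 h2 a ha
      obtain rfl : i = 1 := by omega
      exact hG 1 (by omega) _ (hc2 a (by
        obtain ⟨z, hz, rfl⟩ := ha
        exact W.cl_mem hz))
    · intro j hj a ha
      have ha' := hgr ha
      -- the primitive decomposition
      have hc1 : W.cl X D ^ (X.dim - 2 * (j + 1) + 1) * a ∈
          W.gr X (2 * (X.dim - 2 * (j + 1) + 1) + 2 * (j + 1)) :=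
        W.mul_mem (by
          have : W.cl X D ^ (X.dim - 2 * (j + 1) + 1) ∈
              algClasses W X (X.dim - 2 * (j + 1) + 1) := pow_alg hD _
          exact alg_gr this) ha'
      obtain ⟨-, hs⟩ := hHL (2 * j) (by omega)
      obtain ⟨b, hb, hb2⟩ := hs _ (by
        rwa [show 2 * X.dim - 2 * j = 2 * (X.dim - 2 * (j + 1) + 1) + 2 * (j + 1) by omega])
      refine ⟨b, hG j (by omega) b hb, ?_⟩
      rw [mulLeft_pow_apply'] at hb2
      rw [mul_sub, ← mul_assoc, ← pow_succ, ← hb2,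
        show X.dim - 2 * (j + 1) + 1 + 1 = X.dim - 2 * j by omega, sub_self]
  refine ⟨fun j hj z hz => ?_, fun j hj z hz => ?_⟩
  · exact hS.1 j hj z hz ⟨j, by omega, hG j hj _ (W.cl_mem hz)⟩
  · exact hS.2 j (by omega) z hz ⟨j, by omega, hG j hj _ (W.cl_mem hz)⟩

end Pool.Agent.X305.Fj
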