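import Pool.Agent.Y103.Fj.Hk

/-!
# Varieties with a Fujiki relation whose algebraic classes are generated by divisors
-/

set_option autoImplicit false

open CategoryTheory AlgebraicGeometry Submodule

universe u v

namespace Pool.Agent.X305.Fj

open Pool.Agent.H914 Pool.Agent.H914.VarClass Pool.Agent.H914.VarClass.Obj
  Pool.Agent.H914.WeilCohomology Pool.Agent.W552 Pool.Agent.Y103

variable {k : Type u} [Field k] {𝒱 : VarClass k} {ops : CycleOps 𝒱}

/-- The quadratic form `q` on the divisors of the variety `X` of dimension `2 n` satisfies the Fujiki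
relation with the constant `c > 0`: `deg (z ^ (2 n)) = c q(z) ^ n` for all divisors `z`. -/
def FujikiRelation (ops : CycleOps 𝒱) (X : 𝒱.Obj) (n : ℕ) (c : ℚ)
    (q : QuadraticForm ℚ X.Cycles) : Prop :=
  0 < c ∧ ∀ z, X.IsCyc 1 z → X.V.degCycle (divPow ops z (2 * n) X.V.fundCycle) = c * q z ^ n

/-- The class `x` is a linear combination of products of `j` classes of divisors. -/
def DivisorRing (W : WeilCohomology.{u, v} ops) (X : 𝒱.Obj) (j : ℕ) (x : W.H X) : Prop :=
  x ∈ genRing W.K (algClasses W X) 1 j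

/-- The Hodge index theorem for the divisors on `X`: `deg (z · z · D ^ (dim X - 2)) < 0` for all
divisors `z` with class different from zero and `D ^ (dim X - 1) z = 0`. -/
def HodgeIndex (W : WeilCohomology.{u, v} ops) (X : 𝒱.Obj) (D : X.Cycles) : Prop :=
  ∀ z, X.IsCyc 1 z → W.cl X (divPow ops D (X.dim - 1) z) = 0 → W.cl X z ≠ 0 →
    X.V.degCycle (ops.mul z (divPow ops D (X.dim - 2) z)) < 0

variable {W : WeilCohomology.{u, v} ops} {X : 𝒱.Obj} {D : X.Cycles} {n : ℕ}
  {q : QuadraticForm ℚ X.Cycles} {c : ℚ}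

/-- from the Hodge index theorem to the hypothesis of the library -/
lemma hodgeTypeFor_one (hX : 2 ≤ X.dim) (hD : X.IsCyc 1 D)
    (hdeg : 0 < X.V.degCycle (divPow ops D X.dim X.V.fundCycle)) (hI : HodgeIndex W X D) :
    HodgeTypeFor W X D (InRing W.K (algClasses W X) 1 1) := by
  intro j hj z hz hT h1 h2
  rcases Nat.lt_or_ge j 2 with hlt | hge
  · interval_cases j
    · -- codimension zero
      have hz0 := W.cl_mem hz
      rw [mul_zero, W.gr_zero, Submodule.mem_span_singleton] at hz0
      obtain ⟨r, hr⟩ := hz0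
      have h3 : W.tr X (W.cl X D ^ X.dim * 1) =
          ((X.V.degCycle (divPow ops D X.dim X.V.fundCycle) : ℚ) : W.K) := by
        rw [← W.cl_fund, ← mulLeft_pow_apply', ← cl_divPow, W.tr_cl]
        have := divPow_mem (ops := ops) hD X.dim X.V.fundCycle_mem
        rwa [zero_add] at this
      have h4 : W.tr X (W.cl X D ^ X.dim * W.cl X z) =
          ((X.V.degCycle (divPow ops D X.dim z) : ℚ) : W.K) := by
        rw [← mulLeft_pow_apply', ← cl_divPow, W.tr_cl]
        have := divPow_mem (ops := ops) hD X.dim hz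
        rwa [zero_add] at this
      have h5 : W.tr X (W.cl X z * (W.cl X D ^ X.dim * W.cl X z)) =
          ((X.V.degCycle (ops.mul z (divPow ops D (X.dim - 2 * 0) z)) : ℚ) : W.K) := by
        rw [mul_zero, Nat.sub_zero, ← mulLeft_pow_apply', ← cl_divPow, ← W.cl_mul, W.tr_cl]
        have := ops.mul_mem hz (divPow_mem (ops := ops) hD X.dim hz)
        rwa [zero_add, zero_add] at this
      have hr0 : r ≠ 0 := by
        rintro rfl
        apply h2
        rw [← hr, zero_smul]
      rw [← hr, mul_smul_comm, map_smul, h3, smul_eq_mul] at h4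
      rw [← hr, smul_mul_assoc, one_mul, mul_smul_comm, map_smul, map_smul, h3, smul_eq_mul,
        smul_eq_mul] at h5
      rw [pow_zero, one_mul]
      generalize X.V.degCycle (ops.mul z (divPow ops D (X.dim - 2 * 0) z)) = e at h5 ⊢
      generalize X.V.degCycle (divPow ops D X.dim z) = f at h4
      generalize X.V.degCycle (divPow ops D X.dim X.V.fundCycle) = d at h3 h4 h5 hdeg
      have h6 : ((e * d : ℚ) : W.K) = ((f * f : ℚ) : W.K) := by
        push_cast
        rw [← h5, ← h4]
        ring
      have h7 : e * d = f * f := by exact_mod_cast h6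
      have h8 : f ≠ 0 := by
        rintro rfl
        rw [Rat.cast_zero, mul_eq_zero, or_iff_right hr0] at h4
        exact hdeg.ne' (by exact_mod_cast h4)
      have h9 : 0 < f * f := mul_self_pos.2 h8
      rw [← h7] at h9
      exact (mul_pos_iff_of_pos_right hdeg).1 h9
    · have := hI z hz (by rwa [show X.dim - 1 = X.dim - 2 * 1 + 1 by omega]) h2
      rw [pow_one, mul_one]
      linarith
  · -- the class is homogeneous of two different degrees
    exfalso
    apply h2
    obtain ⟨i, hi, hx⟩ := hT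
    have h3 := genRing_gr (fun i => Set.Subset.rfl) hx
    have h4 := W.cl_mem hz
    rw [← proj_same (W.isInternal X) h4, proj_ne (W.isInternal X) h3 (by omega)]

/-- **Hodge type and `D` for the classes generated by divisors, from the Fujiki relation.** -/
theorem main (hn : X.dim = 2 * n) (hn1 : 1 ≤ n) (hD : X.IsCyc 1 D)
    (hF : FujikiRelation ops X n c q) (hq : 0 < q D) (hI : HodgeIndex W X D) :
    (∀ j ≤ n, HodgeTypeFor W X D (DivisorRing W X j) ∧ HomEqNumFor W X (DivisorRing W X j)) ∧
    ((∀ j ≤ n, ∀ z, X.IsCyc j z → DivisorRing W X j (W.cl X z)) →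
      HodgeType W X D ∧ ∀ j ≤ n, ∀ z, X.IsCyc j z →
        (∀ w, X.IsCyc (X.dim - j) w → X.V.degCycle (ops.mul z w) = 0) → W.cl X z = 0) := by
  have hdeg : 0 < X.V.degCycle (divPow ops D X.dim X.V.fundCycle) := by
    rw [hn, hF.2 D hD]
    have := hF.1
    positivity
  have hS : StdFor W X D (InRing W.K (algClasses W X) 1 n) :=
    Pool.Agent.Y103.Fj.hodge_fujiki hn hn1 hD hF.1 hF.2 hq (hodgeTypeFor_one (by omega) hD hdeg hI)
  refine ⟨fun j hj => ⟨fun i hi z hz hT => hS.1 i hi z hz ⟨j, hj, hT⟩,
    fun i hi z hz hT => hS.2 i hi z hz ⟨j, hj, hT⟩⟩, fun h => ⟨fun j hj z hz => ?_,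
    fun j hj z hz => ?_⟩⟩
  · exact hS.1 j hj z hz ⟨j, by omega, h j (by omega) z hz⟩
  · exact hS.2 j (by omega) z hz ⟨j, hj, h j hj z hz⟩

end Pool.Agent.X305.Fj
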